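import Pool.Agent.H247.CB.Stm
import Pool.Graph.R_pool_sql_team_seeded_35f281b4.K7.H85.KH.Split

/-! Forms which increase along finitely many hyperbolic periodic orbits. -/

set_option autoImplicit false
set_option linter.unusedSectionVars false

open scoped Manifold ContDiff Topology
open Filter Set Metric

universe u

namespace Pool.Agent.H353.CB

open Pool.Agent.H247.CB Pool.Agent.H718R2.G Pool.Agent.TH80.OMS Pool.Agent.Y504.CO
open Pool.Agent.K7.H85.KH (DN DE qform dn_zero dn_succ dn_add dn_symm_it it_md)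

variable {n : ℕ} {N : Type u} [TopologicalSpace N] [T2Space N] [CompactSpace N]
  [ChartedSpace (V n) N] [IsManifold (𝓡 n) ∞ N] {r : ℕ∞}

/-- the derivative at a fixed point in the preferred chart -/
theorem dn_chart {f : N → N} {x : N} (hf : MDifferentiableAt (𝓡 n) (𝓡 n) f x) (hx : f x = x) :
    DN n f x = fderiv ℝ (fun v => chartAt (V n) x (f ((chartAt (V n) x).symm v)))
      (chartAt (V n) x x) := by
  have h1 : DN n f x = fderivWithin ℝ (writtenInExtChartAt (𝓡 n) (𝓡 n) x f)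
      (Set.range (𝓡 n)) (extChartAt (𝓡 n) x x) := hf.mfderiv
  rw [h1]
  simp only [writtenInExtChartAt, hx, mfld_simps, fderivWithin_univ]
  rfl

/-- changing a function at finitely many points outside of a closed set -/
theorem patch {N : Type u} [TopologicalSpace N] [T2Space N] [CompactSpace N] {E : Type}
    [NormedAddCommGroup E] [NormedSpace ℝ E] {B : N → E} (hB : Continuous B) {K P : Set N}
    (hK : IsClosed K) (hP : P.Finite) (hKP : Disjoint K P) (β : N → E) :
    ∃ B' : N → E, Continuous B' ∧ (∀ y ∈ K, B' y = B y) ∧ ∀ y ∈ P, B' y = β y := by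
  classical
  let P' : Finset N := hP.toFinset
  have hP' : ∀ x, x ∈ P' ↔ x ∈ P := fun x => hP.mem_toFinset
  have hφ : ∀ x : N, ∃ φ : C(N, ℝ), x ∈ P → φ x = 1 ∧ ∀ y ∈ K ∪ (P \ {x}), φ y = 0 := by
    intro x
    by_cases hx : x ∈ P
    · obtain ⟨φ, h1, h2, -⟩ := exists_continuous_zero_one_of_isClosed
        (hK.union (hP.subset (fun y hy => hy.1 : P \ {x} ⊆ P)).isClosed)
        (isClosed_singleton (x := x)) (by
          rw [disjoint_singleton_right]
          rintro (h | h)
          · exact disjoint_left.1 hKP h hx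
          · exact h.2 rfl)
      exact ⟨φ, fun _ => ⟨h2 rfl, fun y hy => h1 hy⟩⟩
    · exact ⟨0, fun h => absurd h hx⟩
  choose φ hφ using hφ
  let B' : N → E := fun y => (1 - ∑ x ∈ P', φ x y) • B y + ∑ x ∈ P', φ x y • β x
  refine ⟨B', ?_, ?_, ?_⟩
  · refine Continuous.add (Continuous.smul (continuous_const.sub
      (continuous_finsetSum _ fun x _ => (φ x).continuous)) hB)
      (continuous_finsetSum _ fun x _ => (φ x).continuous.smul continuous_const)
  · intro y hy
    have h0 : ∀ x ∈ P', φ x y = 0 := fun x hx => (hφ x ((hP' x).1 hx)).2 y (Or.inl hy)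
    change (1 - ∑ x ∈ P', φ x y) • B y + ∑ x ∈ P', φ x y • β x = B y
    rw [Finset.sum_eq_zero h0, Finset.sum_eq_zero fun x hx => by rw [h0 x hx, zero_smul],
      sub_zero, one_smul, add_zero]
  · intro y hy
    have h0 : ∀ x ∈ P', x ≠ y → φ x y = 0 := fun x hx hxy =>
      (hφ x ((hP' x).1 hx)).2 y (Or.inr ⟨hy, fun h => hxy (mem_singleton_iff.1 h).symm⟩)
    have h3 : ∑ x ∈ P', φ x y = 1 := by
      rw [Finset.sum_eq_single_of_mem y ((hP' y).2 hy) h0]
      exact (hφ y hy).1
    have h4 : ∑ x ∈ P', φ x y • β x = β y := by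
      rw [Finset.sum_eq_single_of_mem y ((hP' y).2 hy) fun x hx hxy => by
        rw [h0 x hx hxy, zero_smul], (hφ y hy).1, one_smul]
    change (1 - ∑ x ∈ P', φ x y) • B y + ∑ x ∈ P', φ x y • β x = β y
    rw [h3, h4, sub_self, zero_smul, zero_add]

theorem noBdd_dn (hr : 1 ≤ r) (G : DiffM n N r) {x : N} (h : HypAt n G x) {m : ℕ} (hm : 1 ≤ m)
    (hx : G^[m] x = x) : NoBdd (fun _ => DN n (G^[m]) x) := by
  have h1 := h m hm hx (chartAt (V n) x) (IsManifold.chart_mem_maximalAtlas x)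
    (mem_chart_source (V n) x)
  rw [← dn_chart (it_md hr G m x) hx] at h1
  exact h1

theorem dn_inj (hr : 1 ≤ r) (G : DiffM n N r) (m : ℕ) (x : N) :
    Function.Injective (DN n (G^[m]) x) := fun v w h => by
  have h1 := dn_symm_it hr G m x v
  rw [h, dn_symm_it hr G m x w] at h1
  exact h1.symm

theorem main (hQF : S_QF) : S_FM.{u} := by
  classical
  intro n N _ _ _ _ _ r hr G d e he hinj B hB K hK hKG hincr P hP hKP hPG hPer
  -- a common period
  have hper : ∀ x : N, ∃ m : ℕ, 1 ≤ m ∧ (x ∈ P → G^[m] x = x) := by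
    intro x
    by_cases hx : x ∈ P
    · obtain ⟨m, h1, h2⟩ := (hPer x hx).1
      exact ⟨m, h1, fun _ => h2⟩
    · exact ⟨1, le_rfl, fun h => absurd h hx⟩
  choose m hm1 hm2 using hper
  let P' : Finset N := hP.toFinset
  have hP' : ∀ x, x ∈ P' ↔ x ∈ P := fun x => hP.mem_toFinset
  let M : ℕ := ∏ x ∈ P', m x
  have hM1 : 1 ≤ M := Finset.one_le_prod' fun x _ => hm1 x
  have hM2 : ∀ x ∈ P, G^[M] x = x := by
    intro x hx
    have h1 : Function.IsPeriodicPt G (m x) x := hm2 x hx
    exact h1.trans_dvd (Finset.dvd_prod_of_mem m ((hP' x).2 hx))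
  -- the forms
  have hq : ∀ x : N, ∃ q : V n →L[ℝ] V n →L[ℝ] ℝ, x ∈ P → ∀ v, v ≠ 0 →
      q v v < q (DN n (G^[M]) x v) (DN n (G^[M]) x v) := by
    intro x
    by_cases hx : x ∈ P
    · obtain ⟨q, h1⟩ := hQF n (DN n (G^[M]) x) (dn_inj hr G M x)
        (noBdd_dn hr G (hPer x hx).2 hM1 (hM2 x hx))
      exact ⟨q, fun _ => h1⟩
    · exact ⟨0, fun h => absurd h hx⟩
  choose q hq using hq
  let Q : N → V n →L[ℝ] V n →L[ℝ] ℝ := fun x => ∑ j ∈ Finset.range M,
    (q (G^[j] x)).bilinearComp (DN n (G^[j]) x) (DN n (G^[j]) x)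
  have hQ : ∀ x v, Q x v v = ∑ j ∈ Finset.range M,
      q (G^[j] x) (DN n (G^[j]) x v) (DN n (G^[j]) x v) := by
    intro x v
    change (∑ j ∈ Finset.range M,
      (q (G^[j] x)).bilinearComp (DN n (G^[j]) x) (DN n (G^[j]) x)) v v = _
    rw [sum_apply, sum_apply]
    rfl
  have hQi : ∀ x ∈ P, ∀ v : V n, v ≠ 0 → Q x v v < Q (G x) (DN n G x v) (DN n G x v) := by
    intro x hx v hv
    rw [hQ, hQ]
    have e1 : ∀ j, q (G^[j] (G x)) (DN n (G^[j]) (G x) (DN n G x v))
        (DN n (G^[j]) (G x) (DN n G x v)) =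
        q (G^[j + 1] x) (DN n (G^[j + 1]) x v) (DN n (G^[j + 1]) x v) := by
      intro j
      have e2 := dn_add hr G j 1 x v
      have e3 : DN n (G^[1]) x v = DN n G x v := by
        rw [Function.iterate_one]
      rw [e3] at e2
      have e4 : DN n (G^[j]) (G^[1] x) (DN n G x v) = DN n (G^[j]) (G x) (DN n G x v) := rfl
      rw [e4] at e2
      rw [e2]
      rfl
    rw [Finset.sum_congr rfl fun j _ => e1 j]
    have e5 := Finset.sum_range_succ (fun j => q (G^[j] x) (DN n (G^[j]) x v) (DN n (G^[j]) x v)) M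
    have e6 := Finset.sum_range_succ' (fun j => q (G^[j] x) (DN n (G^[j]) x v)
      (DN n (G^[j]) x v)) M
    have e7 := hq x hx v hv
    have e8 : q (G^[M] x) (DN n (G^[M]) x v) (DN n (G^[M]) x v) =
        q x (DN n (G^[M]) x v) (DN n (G^[M]) x v) := by
      rw [hM2 x hx]
    have e9 : q (G^[0] x) (DN n (G^[0]) x v) (DN n (G^[0]) x v) = q x v v := by
      rw [dn_zero]
      rfl
    rw [e8] at e5
    rw [e9] at e6
    linarith
  -- left inverses of the derivative of `e`
  have hL : ∀ x : N, ∃ L : V d →L[ℝ] V n, ∀ v, L (DE n e x v) = v := by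
    intro x
    obtain ⟨L, hL⟩ := LinearMap.exists_leftInverse_of_injective (DE n e x).toLinearMap
      (LinearMap.ker_eq_bot.2 (hinj x))
    exact ⟨LinearMap.toContinuousLinearMap L, fun v => LinearMap.congr_fun hL v⟩
  choose L hL using hL
  let β : N → V d →L[ℝ] V d →L[ℝ] ℝ := fun x => (Q x).bilinearComp (L x) (L x)
  have hβ : ∀ x v, β x (DE n e x v) (DE n e x v) = Q x v v := by
    intro x v
    change Q x (L x (DE n e x v)) (L x (DE n e x v)) = _
    rw [hL]
  obtain ⟨B', hB', h1, h2⟩ := patch hB hK hP hKP β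
  refine ⟨B', hB', ?_⟩
  rintro x (hx | hx) v hv
  · have := hincr x hx v hv
    unfold qform at this ⊢
    rw [h1 x hx, h1 _ (hKG x hx)]
    exact this
  · unfold qform
    rw [h2 x hx, h2 _ (hPG x hx), hβ, hβ]
    exact hQi x hx v hv

end Pool.Agent.H353.CB
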